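import Pool.Agent.H92.KST.Targets

/-!
# Row DVR of the board kst_modules: uniformizers at primes of height one (helper52)
-/

set_option autoImplicit false
set_option linter.dupNamespace false

universe u

namespace Pool.Agent.H52.KST

open Pool.Agent.H92.KST

/-- the localisation at a prime of height one of an integrally closed noetherian domain is a
discrete valuation ring -/
theorem isDVR (R : Type u) [CommRing R] [IsDomain R] [IsNoetherianRing R] [IsIntegrallyClosed R]
    (P : Ideal R) [P.IsPrime] (h : P.height = 1) [IsDomain (Localization.AtPrime P)] :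
    IsDiscreteValuationRing (Localization.AtPrime P) := by
  haveI : IsNoetherianRing (Localization.AtPrime P) :=
    IsLocalization.isNoetherianRing P.primeCompl _ inferInstance
  haveI : IsIntegrallyClosed (Localization.AtPrime P) :=
    isIntegrallyClosed_of_isLocalization _ P.primeCompl P.primeCompl_le_nonZeroDivisors
  have hdim : ringKrullDim (Localization.AtPrime P) = 1 := by
    rw [IsLocalization.AtPrime.ringKrullDim_eq_height P, h]
    rfl
  haveI : Ring.KrullDimLE 1 (Localization.AtPrime P) := Ring.krullDimLE_iff.mpr hdim.le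
  have hnf : ¬ IsField (Localization.AtPrime P) := by
    intro hf
    have h1 := ringKrullDim_eq_zero_of_isField hf
    rw [hdim] at h1
    exact one_ne_zero h1
  have h03 : IsDiscreteValuationRing (Localization.AtPrime P) ↔
      IsIntegrallyClosed (Localization.AtPrime P) ∧
        ∃! Q : Ideal (Localization.AtPrime P), Q ≠ ⊥ ∧ Q.IsPrime :=
    (IsDiscreteValuationRing.TFAE (Localization.AtPrime P) hnf).out 0 3
  refine h03.mpr ⟨inferInstance, IsLocalRing.maximalIdeal _, ⟨?_, inferInstance⟩, ?_⟩
  · intro h1
    exact hnf (IsLocalRing.isField_iff_maximalIdeal_eq.mpr h1)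
  · rintro Q ⟨hQ0, hQ⟩
    exact IsLocalRing.eq_maximalIdeal
      (Ring.krullDimLE_one_iff_of_noZeroDivisors.mp inferInstance Q hQ0 hQ)

/-- a uniformizer in the ring -/
theorem exists_unif (R : Type u) [CommRing R] [IsDomain R] [IsNoetherianRing R]
    [IsIntegrallyClosed R] (P : Ideal R) (hP : P.IsPrime) (h : P.height = 1) :
    ∃ w ∈ P, w ≠ 0 ∧ ∀ x : R, x ≠ 0 → ∃ (k : ℕ) (s t : R), s ∉ P ∧ t ∉ P ∧ s * x = t * w ^ k := by
  haveI : IsDomain (Localization.AtPrime P) :=
    IsLocalization.isDomain_localization P.primeCompl_le_nonZeroDivisors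
  haveI := isDVR R P h
  have hinj : Function.Injective (algebraMap R (Localization.AtPrime P)) :=
    IsLocalization.injective _ P.primeCompl_le_nonZeroDivisors
  obtain ⟨ϖ, hϖ⟩ := IsDiscreteValuationRing.exists_irreducible (Localization.AtPrime P)
  obtain ⟨w, s₀, hw⟩ := IsLocalization.exists_mk'_eq P.primeCompl ϖ
  have hs₀ : IsUnit (algebraMap R (Localization.AtPrime P) s₀) :=
    IsLocalization.map_units _ s₀
  have hwϖ : algebraMap R (Localization.AtPrime P) w =
      ϖ * algebraMap R (Localization.AtPrime P) s₀ := by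
    rw [← hw, IsLocalization.mk'_spec]
  have hass : Associated ϖ (algebraMap R (Localization.AtPrime P) w) := by
    obtain ⟨u, hu⟩ := hs₀
    exact ⟨u, by rw [hwϖ, hu]⟩
  have hirr : Irreducible (algebraMap R (Localization.AtPrime P) w) := hass.irreducible hϖ
  have hwP : w ∈ P := by
    by_contra h1
    exact hirr.not_isUnit (IsLocalization.map_units _ (⟨w, h1⟩ : P.primeCompl))
  have hw0 : w ≠ 0 := by
    rintro rfl
    rw [map_zero] at hirr
    exact hirr.ne_zero rfl
  refine ⟨w, hwP, hw0, fun x hx => ?_⟩
  have hx0 : algebraMap R (Localization.AtPrime P) x ≠ 0 := by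
    intro h1
    exact hx (hinj (by rw [h1, map_zero]))
  obtain ⟨k, u, hu⟩ := IsDiscreteValuationRing.eq_unit_mul_pow_irreducible hx0 hirr
  obtain ⟨t, s, hts⟩ := IsLocalization.exists_mk'_eq P.primeCompl (u : Localization.AtPrime P)
  have ht : t ∉ P := by
    intro h1
    have h2 : IsUnit (algebraMap R (Localization.AtPrime P) t) := by
      have h3 : algebraMap R (Localization.AtPrime P) t =
          (u : Localization.AtPrime P) * algebraMap R (Localization.AtPrime P) s := by
        rw [← hts, IsLocalization.mk'_spec]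
      rw [h3]
      exact u.isUnit.mul (IsLocalization.map_units _ s)
    exact (IsLocalization.AtPrime.isUnit_to_map_iff (Localization.AtPrime P) P t).mp h2 h1
  refine ⟨k, s, t, s.2, ht, hinj ?_⟩
  rw [map_mul, map_mul, map_pow, hu, ← hts]
  have h3 := IsLocalization.mk'_spec (Localization.AtPrime P) t s
  rw [← h3]
  ring

/-- Row DVR. -/
theorem pf_DVR : T_DVR.{u} := by
  intro R F _ _ _ _ _ _ _ P hP hht
  obtain ⟨w, hwP, hw0, hw⟩ := exists_unif R P hP hht
  have hne : ∀ x : R, x ≠ 0 → algebraMap R F x ≠ 0 := fun x hx h1 =>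
    hx ((IsFractionRing.injective R F) (by rw [h1, map_zero]))
  have h0 : ∀ x : R, x ∉ P → x ≠ 0 := by
    rintro x hx rfl
    exact hx P.zero_mem
  have hmul : ∀ x y : R, x ∉ P → y ∉ P → x * y ∉ P := fun x y hx hy h1 =>
    (hP.mem_or_mem h1).elim hx hy
  refine ⟨w, hwP, hw0, fun x hx => ?_, fun f hf => ?_⟩
  · by_cases hx0 : x = 0
    · refine ⟨1, 0, one_ne_zero, ?_, ?_⟩
      · rintro q rfl h1
        exact hP.ne_top ((Ideal.eq_top_iff_one _).mpr h1)
      · rw [hx0, map_zero, zero_div, mul_zero]
    · obtain ⟨k, s, t, hs, ht, hk⟩ := hw x hx0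
      rcases k with _ | k
      · exfalso
        rw [pow_zero, mul_one] at hk
        exact ht (hk ▸ P.mul_mem_left s hx)
      · refine ⟨s, t * w ^ k, h0 s hs, ?_, ?_⟩
        · rintro q rfl
          exact hs
        · rw [← mul_div_assoc, ← map_mul, hk, div_eq_iff (hne w hw0), ← map_mul]
          congr 1
          ring
  · obtain ⟨x, y, hy, rfl⟩ := IsFractionRing.div_surjective (A := R) f
    have hy0 : y ≠ 0 := nonZeroDivisors.ne_zero hy
    have hx0 : x ≠ 0 := by
      rintro rfl
      rw [map_zero, zero_div] at hf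
      exact hf rfl
    obtain ⟨k, s, t, hs, ht, hk⟩ := hw x hx0
    obtain ⟨l, s', t', hs', ht', hl⟩ := hw y hy0
    have e1 : algebraMap R F s * algebraMap R F x = algebraMap R F t * algebraMap R F w ^ k := by
      rw [← map_mul, hk, map_mul, map_pow]
    have e2 : algebraMap R F s' * algebraMap R F y =
        algebraMap R F t' * algebraMap R F w ^ l := by
      rw [← map_mul, hl, map_mul, map_pow]
    have nw := hne w hw0
    have ny := hne y hy0
    have nx := hne x hx0
    have ns := hne s (h0 s hs)
    have ns' := hne s' (h0 s' hs')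
    have nt := hne t (h0 t ht)
    have nt' := hne t' (h0 t' ht')
    have e3 : algebraMap R F x / algebraMap R F y * algebraMap R F w ^ ((l : ℤ) - (k : ℤ)) =
        (algebraMap R F t * algebraMap R F s') / (algebraMap R F s * algebraMap R F t') := by
      rw [zpow_sub₀ nw, zpow_natCast, zpow_natCast]
      have hwk := pow_ne_zero k nw
      rw [div_mul_div_comm, div_eq_div_iff (mul_ne_zero ny hwk) (mul_ne_zero ns nt')]
      calc algebraMap R F x * algebraMap R F w ^ l * (algebraMap R F s * algebraMap R F t')
          = (algebraMap R F s * algebraMap R F x) * (algebraMap R F t' * algebraMap R F w ^ l) := by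
            ring
        _ = (algebraMap R F t * algebraMap R F w ^ k) * (algebraMap R F s' * algebraMap R F y) := by
            rw [e1, e2]
        _ = algebraMap R F t * algebraMap R F s' * (algebraMap R F y * algebraMap R F w ^ k) := by
            ring
    refine ⟨(l : ℤ) - (k : ℤ), ?_⟩
    rw [e3]
    refine ⟨div_ne_zero (mul_ne_zero nt ns') (mul_ne_zero ns nt'), ?_, ?_⟩
    · refine ⟨s * t', t * s', h0 _ (hmul _ _ hs ht'), ?_, ?_⟩
      · rintro q rfl
        exact hmul _ _ hs ht'
      · rw [map_mul, map_mul, mul_div_cancel₀ _ (mul_ne_zero ns nt')]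
    · refine ⟨t * s', s * t', h0 _ (hmul _ _ ht hs'), ?_, ?_⟩
      · rintro q rfl
        exact hmul _ _ ht hs'
      · rw [map_mul, map_mul, inv_div, mul_div_cancel₀ _ (mul_ne_zero nt ns')]

end Pool.Agent.H52.KST
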